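import Pool.Agent.Lib.MP_e6fef2_lc.Base

/-!
# ALG, ALG2: complete embeddings and projections
-/

set_option autoImplicit false

universe u v

namespace Pool.Agent.Lib.MP_e6fef2_lc.H57

open Pool.Agent.Lib.MP_e6fef2_lc

section

variable {A B C : Type u} [CompleteBooleanAlgebra A] [CompleteBooleanAlgebra B]
  [CompleteBooleanAlgebra C] {f : A → C}

theorem ce_sup (h : IsCE f) (a b : A) : f (a ⊔ b) = f a ⊔ f b := by
  rw [← sSup_pair, h.sSup, iSup_pair]

theorem ce_bot (h : IsCE f) : f ⊥ = ⊥ := by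
  rw [← sSup_empty, h.sSup]
  simp

theorem ce_top (h : IsCE f) : f ⊤ = ⊤ := by
  rw [← compl_bot, h.compl, ce_bot h, compl_bot]

theorem ce_inf (h : IsCE f) (a b : A) : f (a ⊓ b) = f a ⊓ f b := by
  have h1 : a ⊓ b = (aᶜ ⊔ bᶜ)ᶜ := by simp
  rw [h1, h.compl, ce_sup h, h.compl, h.compl]
  simp

theorem ce_mono (h : IsCE f) : Monotone f := by
  intro a b hab
  have h1 : f (a ⊔ b) = f a ⊔ f b := ce_sup h a b
  rw [sup_eq_right.2 hab] at h1
  rw [h1]
  exact le_sup_left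

theorem ce_le (h : IsCE f) (a b : A) : f a ≤ f b ↔ a ≤ b := by
  constructor
  · intro hab
    have h1 : f (a ⊓ b) = f a := by rw [ce_inf h, inf_eq_left.2 hab]
    exact inf_eq_left.1 (h.inj h1)
  · exact fun hab => ce_mono h hab

theorem ce_iSup (h : IsCE f) {ι : Sort v} (a : ι → A) : f (⨆ i, a i) = ⨆ i, f (a i) := by
  rw [iSup, h.sSup, iSup_range]

theorem ce_iInf (h : IsCE f) {ι : Sort v} (a : ι → A) : f (⨅ i, a i) = ⨅ i, f (a i) := by
  have h1 : ⨅ i, a i = (⨆ i, (a i)ᶜ)ᶜ := by rw [compl_iSup]; simp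
  rw [h1, h.compl, ce_iSup h, compl_iSup]
  simp [h.compl]

theorem ce_sInf (h : IsCE f) (s : Set A) : f (sInf s) = ⨅ a ∈ s, f a := by
  rw [sInf_eq_iInf, ce_iInf h]
  simp only [ce_iInf h]

theorem ce_biInf (h : IsCE f) {ι : Type v} (s : Set ι) (a : ι → A) :
    f (⨅ i ∈ s, a i) = ⨅ i ∈ s, f (a i) := by
  simp only [ce_iInf h]

theorem ce_biSup (h : IsCE f) {ι : Type v} (s : Set ι) (a : ι → A) :
    f (⨆ i ∈ s, a i) = ⨆ i ∈ s, f (a i) := by
  simp only [ce_iSup h]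

theorem le_prj (h : IsCE f) (c : C) : c ≤ f (prj f c) := by
  unfold prj
  rw [ce_sInf h]
  exact le_iInf₂ fun a ha => ha

theorem prj_gc (h : IsCE f) : GaloisConnection (prj f) f := by
  intro c a
  constructor
  · exact fun h1 => (le_prj h c).trans (ce_mono h h1)
  · exact fun h1 => sInf_le h1

theorem prj_le (h : IsCE f) (c : C) (a : A) : prj f c ≤ a ↔ c ≤ f a := prj_gc h c a

theorem prj_map (h : IsCE f) (a : A) : prj f (f a) = a := by
  refine le_antisymm ((prj_le h _ _).2 le_rfl) ?_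
  rw [← ce_le h]
  exact le_prj h _

theorem prj_mono (h : IsCE f) : Monotone (prj f) := (prj_gc h).monotone_l

theorem prj_iSup (h : IsCE f) {ι : Sort v} (c : ι → C) : prj f (⨆ i, c i) = ⨆ i, prj f (c i) :=
  (prj_gc h).l_iSup

theorem prj_sSup (h : IsCE f) (s : Set C) : prj f (sSup s) = ⨆ c ∈ s, prj f c :=
  (prj_gc h).l_sSup

theorem prj_biSup (h : IsCE f) {ι : Type v} (s : Set ι) (c : ι → C) :
    prj f (⨆ i ∈ s, c i) = ⨆ i ∈ s, prj f (c i) := by
  simp only [prj_iSup h]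

theorem prj_inf (h : IsCE f) (c : C) (a : A) : prj f (c ⊓ f a) = prj f c ⊓ a := by
  apply le_antisymm
  · exact le_inf (prj_mono h inf_le_left) ((prj_le h _ _).2 inf_le_right)
  · have h1 : prj f c ≤ prj f (c ⊓ f a) ⊔ aᶜ := by
      rw [prj_le h, ce_sup h, h.compl]
      have h2 : c ⊓ f a ≤ f (prj f (c ⊓ f a)) := le_prj h _
      have h3 : c ≤ c ⊓ f a ⊔ (f a)ᶜ := by
        rw [sup_inf_right, sup_compl_eq_top, inf_top_eq]
        exact le_sup_left
      exact h3.trans (sup_le_sup_right h2 _)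
    have h2 : prj f c ⊓ a ≤ (prj f (c ⊓ f a) ⊔ aᶜ) ⊓ a := inf_le_inf_right _ h1
    refine h2.trans ?_
    rw [inf_sup_right, compl_inf_eq_bot, sup_bot_eq]
    exact inf_le_left

theorem prj_inf' (h : IsCE f) (c : C) (a : A) : prj f (f a ⊓ c) = a ⊓ prj f c := by
  rw [inf_comm, prj_inf h, inf_comm]

theorem prj_eq_bot (h : IsCE f) (c : C) : prj f c = ⊥ ↔ c = ⊥ := by
  rw [← le_bot_iff, prj_le h, ce_bot h, le_bot_iff]

theorem prj_bot (h : IsCE f) : prj f (⊥ : C) = ⊥ := (prj_eq_bot h ⊥).2 rfl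

theorem prj_top (h : IsCE f) : prj f (⊤ : C) = ⊤ := by
  have h1 := prj_map h ⊤
  rwa [ce_top h] at h1

theorem map_inf_eq_bot (h : IsCE f) (c : C) (a : A) : f a ⊓ c = ⊥ ↔ a ⊓ prj f c = ⊥ := by
  rw [← prj_inf' h, prj_eq_bot h]

theorem ce_comp {g : B → C} {f : A → B} (hf : IsCE f) (hg : IsCE g) :
    IsCE (fun a => g (f a)) where
  inj := fun _ _ hab => hf.inj (hg.inj hab)
  compl := fun a => by rw [hf.compl, hg.compl]
  sSup := fun s => by rw [hf.sSup, ce_biSup hg]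

theorem prj_comp {g : B → C} {f : A → B} (hf : IsCE f) (hg : IsCE g) (c : C) :
    prj (fun a => g (f a)) c = prj f (prj g c) := by
  apply le_antisymm
  · rw [prj_le (ce_comp hf hg), ← prj_le hg, ← prj_le hf]
  · rw [prj_le hf, prj_le hg, ← prj_le (ce_comp hf hg)]

theorem ce_id : IsCE (fun a : A => a) where
  inj := fun _ _ hab => hab
  compl := fun _ => rfl
  sSup := fun _ => sSup_eq_iSup

theorem prj_id (a : A) : prj (fun a : A => a) a = a := prj_map ce_id a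

end

/-- ALG -/
theorem alg : AlgStatement.{u} := by
  intro A C _ _ f h
  exact ⟨ce_top h, ce_bot h, ce_inf h, ce_sup h, ce_le h, fun ι a => ce_iSup h a,
    fun ι a => ce_iInf h a, fun a => ce_iSup h a, fun a => ce_iInf h a, le_prj h, prj_le h,
    prj_map h, fun c d hcd => prj_mono h hcd, fun ι c => prj_iSup h c, fun c => prj_iSup h c,
    prj_sSup h, prj_inf h, prj_eq_bot h, fun c a => map_inf_eq_bot h c a⟩

/-- ALG2 -/
theorem alg2 : Alg2Statement.{u} := by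
  intro A B C _ _ _ f g hf hg
  exact ⟨ce_comp hf hg, prj_comp hf hg, ce_id⟩

end Pool.Agent.Lib.MP_e6fef2_lc.H57
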