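import Pool.Agent.Lib.MP_e6fef2_lc.Chain
import Pool.Agent.Lib.MP_e6fef2_lc.H57.Alg

/-!
# LIMA: the restriction of a thread
-/

set_option autoImplicit false

universe u v

namespace Pool.Agent.Lib.MP_e6fef2_lc.H57

open Pool.Agent.Lib.MP_e6fef2_lc

section

variable {L : Type u} [LinearOrder L] {A : L → Type u} [∀ i, CompleteBooleanAlgebra (A i)]
  {f : ∀ i j, A i → A j}

theorem ch_prj_self (h : IsCh A f) (i : L) (a : A i) : prj (f i i) a = a := by
  have h1 := prj_map (h.ce i i le_rfl) a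
  rwa [h.id] at h1

theorem ch_prj_comp (h : IsCh A f) {i j k : L} (hij : i ≤ j) (hjk : j ≤ k) (c : A k) :
    prj (f i j) (prj (f j k) c) = prj (f i k) c := by
  rw [← prj_comp (h.ce i j hij) (h.ce j k hjk)]
  congr 1
  funext a
  exact h.comp i j k hij hjk a

variable (p : Thr A f) (i : L) (a : A i)

/-- the restriction of the thread `p` to `a`, computed at `k` -/
def rs (j k : L) : A j := prj (f j k) (p.t k ⊓ f i k a)

variable {p i a}

theorem rs_prj (h : IsCh A f) {j j' k : L} (hj : j ≤ j') (hk : j' ≤ k) :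
    prj (f j j') (rs p i a j' k) = rs p i a j k := ch_prj_comp h hj hk _

theorem rs_self (h : IsCh A f) (j : L) : rs p i a j j = p.t j ⊓ f i j a := ch_prj_self h _ _

theorem rs_indep (h : IsCh A f) {j k k' : L} (hjk : j ≤ k) (hik : i ≤ k) (hk : k ≤ k') :
    rs p i a j k' = rs p i a j k := by
  unfold rs
  rw [← ch_prj_comp h hjk hk, ← h.comp i k k' hik hk, prj_inf (h.ce k k' hk), p.th k k' hk]

theorem rs_max (h : IsCh A f) {j k : L} (hjk : j ≤ k) (hik : i ≤ k) :
    rs p i a j (max i j) = rs p i a j k :=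
  (rs_indep h (le_max_right _ _) (le_max_left _ _) (max_le hik hjk)).symm

theorem rs_of_le (h : IsCh A f) {j : L} (hij : i ≤ j) :
    rs p i a j (max i j) = p.t j ⊓ f i j a := by
  rw [rs_max h le_rfl hij, rs_self h]

theorem rs_thread (h : IsCh A f) {j j' : L} (hj : j ≤ j') :
    prj (f j j') (rs p i a j' (max i j')) = rs p i a j (max i j) := by
  rw [rs_prj h hj (le_max_right _ _), ← rs_max h (hj.trans (le_max_right _ _)) (le_max_left _ _)]

theorem rs_le (h : IsCh A f) (j : L) : rs p i a j (max i j) ≤ p.t j := by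
  have h1 : j ≤ max i j := le_max_right _ _
  have h2 := p.th j (max i j) h1
  rw [← h2]
  exact prj_mono (h.ce _ _ h1) inf_le_left

theorem rs_ne (h : IsCh A f) (hne : p.t i ⊓ a ≠ ⊥) (j : L) : rs p i a j (max i j) ≠ ⊥ := by
  intro h1
  apply hne
  have h2 : i ≤ max i j := le_max_left _ _
  unfold rs at h1
  rw [prj_eq_bot (h.ce _ _ (le_max_right _ _))] at h1
  rw [← p.th i (max i j) h2, ← prj_inf (h.ce _ _ h2), h1, prj_bot (h.ce _ _ h2)]

theorem rs_supp (h : IsCh A f) : ∃ s : Set L, s.Countable ∧ s.Nonempty ∧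
    ∀ j, (∀ k ∈ s, k ≤ j) →
      rs p i a j (max i j) = ⨅ k ∈ s, f k j (rs p i a k (max i k)) := by
  obtain ⟨s, hs, hs1, hs2⟩ := p.supp
  refine ⟨insert i s, hs.insert i, Set.insert_nonempty _ _, ?_⟩
  intro j hj
  have hij : i ≤ j := hj i (Set.mem_insert _ _)
  apply le_antisymm
  · refine le_iInf₂ fun k hk => ?_
    have hkj := hj k hk
    rw [← rs_thread h hkj]
    exact le_prj (h.ce k j hkj) _
  · rw [rs_of_le h hij]
    refine le_inf ?_ ?_
    · rw [hs2 j fun k hk => hj k (Set.mem_insert_of_mem _ hk)]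
      refine le_iInf₂ fun k hk => ?_
      have hk' : k ∈ insert i s := Set.mem_insert_of_mem _ hk
      exact (iInf₂_le k hk').trans (ce_mono (h.ce k j (hj k hk')) (rs_le h k))
    · have h1 : i ∈ insert i s := Set.mem_insert _ _
      refine (iInf₂_le i h1).trans (ce_mono (h.ce i j hij) ?_)
      rw [rs_of_le h le_rfl, h.id]
      exact inf_le_right

/-- the restriction of the thread `p` to `a` -/
def rth (h : IsCh A f) (hne : p.t i ⊓ a ≠ ⊥) : Thr A f where
  t j := rs p i a j (max i j)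
  th _ _ hj := rs_thread h hj
  ne := rs_ne h hne
  supp := rs_supp h

end

/-- LIMA -/
theorem lima : LimaStatement.{u} := by
  intro L _ A _ f h p i a hne
  refine ⟨rth h hne, fun j => rs_le h j, ?_, ?_⟩
  · show rs p i a i (max i i) = _
    rw [rs_of_le h le_rfl, h.id]
  · intro r hr hra j
    show r.t j ≤ rs p i a j (max i j)
    have h1 : j ≤ max i j := le_max_right _ _
    have h2 : i ≤ max i j := le_max_left _ _
    rw [← r.th j _ h1]
    refine prj_mono (h.ce _ _ h1) (le_inf (hr _) ?_)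
    rw [← prj_le (h.ce _ _ h2), r.th _ _ h2]
    exact hra

end Pool.Agent.Lib.MP_e6fef2_lc.H57
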